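import Mathlib
import Pool.Agent.H85.PS.Targets

/-!
# psv_modules TYM: arithmetic types multiply
-/

set_option autoImplicit false

open Polynomial Finset

namespace Pool.Agent.H70.PS

open Pool.Agent.H85.PS

theorem lcmUpto_dvd {a i : ℕ} (h : a ≤ i) : Nat.lcmUpto a ∣ Nat.lcmUpto i := by
  unfold Nat.lcmUpto
  refine Finset.lcm_dvd fun x hx => Finset.dvd_lcm ?_
  rw [Finset.mem_Icc] at hx ⊢
  omega

theorem sum_int {ι : Type} (s : Finset ι) (f : ι → ℚ) (h : ∀ x ∈ s, ∃ z : ℤ, f x = z) :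
    ∃ z : ℤ, ∑ x ∈ s, f x = z := by
  classical
  induction s using Finset.induction_on with
  | empty => exact ⟨0, by simp⟩
  | insert a s ha ih =>
    obtain ⟨z1, h1⟩ := h a (Finset.mem_insert_self _ _)
    obtain ⟨z2, h2⟩ := ih fun x hx => h x (Finset.mem_insert_of_mem hx)
    exact ⟨z1 + z2, by rw [Finset.sum_insert ha, h1, h2]; push_cast; ring⟩

theorem pf_TYM : T_TYM := by
  intro q t u g h hg hh i
  rw [PowerSeries.coeff_mul, Finset.mul_sum]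
  refine sum_int _ _ ?_
  rintro ⟨a, b⟩ hab
  rw [Finset.HasAntidiagonal.mem_antidiagonal] at hab
  simp only at hab
  obtain ⟨z1, h1⟩ := hg a
  obtain ⟨z2, h2⟩ := hh b
  obtain ⟨x, hx⟩ := lcmUpto_dvd (a := a) (i := i) (by omega)
  obtain ⟨y, hy⟩ := lcmUpto_dvd (a := b) (i := i) (by omega)
  have hx' : (Nat.lcmUpto i : ℚ) = (Nat.lcmUpto a : ℚ) * x := by exact_mod_cast hx
  have hy' : (Nat.lcmUpto i : ℚ) = (Nat.lcmUpto b : ℚ) * y := by exact_mod_cast hy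
  refine ⟨z1 * z2 * (x : ℤ) ^ t * (y : ℤ) ^ u, ?_⟩
  push_cast
  rw [← h1, ← h2, ← hab, pow_add (q : ℚ), pow_add (Nat.lcmUpto (a + b) : ℚ) t u, hab]
  rw [show (Nat.lcmUpto i : ℚ) ^ t * (Nat.lcmUpto i : ℚ) ^ u =
    ((Nat.lcmUpto a : ℚ) * x) ^ t * ((Nat.lcmUpto b : ℚ) * y) ^ u by rw [← hx', ← hy']]
  simp only [mul_pow]
  ring

end Pool.Agent.H70.PS
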